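import Pool.Agent.Q317.ST.Ab

/-!
# Deligne's relation for the Artin twists of a motive

`Ω` is an algebraic closure of `ℚ`; number fields are the finite extensions of `ℚ` in `Ω`, `GG K` is
the absolute Galois group of `K`.
-/

set_option autoImplicit false

namespace Pool.Agent.Q5.DL

/-- the field of algebraic numbers in `ℂ` -/
def QBar : Type := algebraicClosure ℚ ℂ

noncomputable instance : Field QBar := inferInstanceAs (Field (algebraicClosure ℚ ℂ))

/-- families of nonzero complex numbers indexed by the embeddings `ℚ̄ → ℂ` -/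
abbrev Val : Type := (QBar →+* ℂ) → ℂˣ

/-- `ℚ̄^×` inside these families, by `x ↦ (τ(x))_τ` -/
noncomputable def diag : QBarˣ →* Val where
  toFun x τ := Units.map (τ : QBar →* ℂ) x
  map_one' := by
    funext τ
    exact map_one _
  map_mul' x y := by
    funext τ
    exact map_mul _ _ _

open IntermediateField Pool.Agent.Q317.ST

/-- `χ` is the character of a continuous representation of the absolute Galois group of the number
field `K` on a finite dimensional complex vector space. -/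
def IsArtin {Ω : Type} [Field Ω] [Algebra ℚ Ω] (K : IntermediateField ℚ Ω) (χ : GG K → ℂ) : Prop :=
  ∃ L : IntermediateField ℚ Ω, FiniteDimensional ℚ L ∧ K ≤ L ∧ IsCharOf χ (GG L)

/-- `χ` is the character of a representation of the Galois group of a finite abelian extension of
the number field `K`. -/
def IsAbelian {Ω : Type} [Field Ω] [Algebra ℚ Ω] (K : IntermediateField ℚ Ω) (χ : GG K → ℂ) :
    Prop :=
  ∃ L : IntermediateField ℚ Ω, AbelianExt K L ∧ IsCharOf χ (GG L)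

/-- The values `L(m, M_K ⊗ χ)` and the periods `(2πi)^(m n^ε) c^ε(M_K ⊗ χ)` (for chosen bases) of
the twists of a motive `M`, with their formal properties. -/
structure Twists (Ω : Type) [Field Ω] [Algebra ℚ Ω] where
  /-- the value `L(m, M_K ⊗ χ)` -/
  L : ∀ K : IntermediateField ℚ Ω, (GG K → ℂ) → Val
  /-- the period `(2πi)^(m n^ε) c^ε(M_K ⊗ χ)` -/
  c : ∀ K : IntermediateField ℚ Ω, (GG K → ℂ) → Val
  /-- `L(m, M_K ⊗ (χ₁ + χ₂)) = L(m, M_K ⊗ χ₁) L(m, M_K ⊗ χ₂)` -/
  L_add : ∀ (K : IntermediateField ℚ Ω) (χ₁ χ₂ : GG K → ℂ), IsArtin K χ₁ → IsArtin K χ₂ →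
    L K (χ₁ + χ₂) = L K χ₁ * L K χ₂
  /-- `L(m, M_K ⊗ Ind χ) = L(m, M_{K'} ⊗ χ)` -/
  L_ind : ∀ K K' : IntermediateField ℚ Ω, K ≤ K' → ∀ χ : GG K' → ℂ, IsArtin K' χ →
    L K (ind (GG K) (GG K') χ) = L K' χ
  /-- `c(M_K ⊗ (χ₁ + χ₂)) = c(M_K ⊗ χ₁) c(M_K ⊗ χ₂)` up to an algebraic number -/
  c_add : ∀ (K : IntermediateField ℚ Ω) (χ₁ χ₂ : GG K → ℂ), IsArtin K χ₁ → IsArtin K χ₂ →
    c K (χ₁ + χ₂) / (c K χ₁ * c K χ₂) ∈ diag.range
  /-- `c(M_K ⊗ Ind χ) = c(M_{K'} ⊗ χ)` up to an algebraic number -/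
  c_ind : ∀ K K' : IntermediateField ℚ Ω, K ≤ K' → ∀ χ : GG K' → ℂ, IsArtin K' χ →
    c K (ind (GG K) (GG K') χ) / c K' χ ∈ diag.range

namespace Twists

variable {Ω : Type} [Field Ω] [Algebra ℚ Ω] (M : Twists Ω)

/-- Deligne's relation for `M_K ⊗ χ`. -/
def Deligne (K : IntermediateField ℚ Ω) (χ : GG K → ℂ) : Prop := M.L K χ / M.c K χ ∈ diag.range

/-- Deligne's relation for `M_K ⊗ χ`, all `χ`. -/
def AllFor (K : IntermediateField ℚ Ω) : Prop := ∀ χ : GG K → ℂ, IsArtin K χ → M.Deligne K χ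

/-- Deligne's relation for `M_K ⊗ χ`, all `χ` of finite abelian extensions of `K`. -/
def AbelianFor (K : IntermediateField ℚ Ω) : Prop :=
  ∀ χ : GG K → ℂ, IsAbelian K χ → M.Deligne K χ

end Twists

end Pool.Agent.Q5.DL
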