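import Pool.Agent.Q5.DL.Defs

/-!
# Descent of Deligne's relation along a Kummer relation
-/

set_option autoImplicit false

namespace Pool.Agent.Q5.DL

open scoped Classical
open IntermediateField Pool.Agent.Q317.ST

attribute [-instance] DivisionRing.toRatAlgebra

/-- families modulo algebraic numbers -/
def Cls : Type := Val ⧸ diag.range

noncomputable instance : CommGroup Cls := inferInstanceAs (CommGroup (Val ⧸ diag.range))

/-- the class of a family -/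
noncomputable def cls : Val →* Cls := QuotientGroup.mk' diag.range

theorem cls_eq_one {x : Val} : cls x = 1 ↔ x ∈ diag.range := QuotientGroup.eq_one_iff _

variable {Ω : Type} [Field Ω] [Algebra ℚ Ω]

namespace Twists

variable (M : Twists Ω)

/-- the class of the quotient of the value and the period -/
noncomputable def r (K : IntermediateField ℚ Ω) (χ : GG K → ℂ) : Cls := cls (M.L K χ / M.c K χ)

variable {M}

theorem deligne_iff {K : IntermediateField ℚ Ω} {χ : GG K → ℂ} : M.Deligne K χ ↔ M.r K χ = 1 :=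
  cls_eq_one.symm

theorem r_add {K : IntermediateField ℚ Ω} {χ₁ χ₂ : GG K → ℂ} (h1 : IsArtin K χ₁)
    (h2 : IsArtin K χ₂) : M.r K (χ₁ + χ₂) = M.r K χ₁ * M.r K χ₂ := by
  have h := cls_eq_one.2 (M.c_add K χ₁ χ₂ h1 h2)
  unfold r
  rw [map_div, map_mul, div_eq_one] at h
  rw [map_div, map_div, map_div, M.L_add K χ₁ χ₂ h1 h2, h, map_mul, mul_div_mul_comm]

theorem r_ind {K K' : IntermediateField ℚ Ω} (hK : K ≤ K') {χ : GG K' → ℂ} (h1 : IsArtin K' χ) :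
    M.r K (ind (GG K) (GG K') χ) = M.r K' χ := by
  have h := cls_eq_one.2 (M.c_ind K K' hK χ h1)
  unfold r
  rw [map_div, div_eq_one] at h
  rw [map_div, map_div, M.L_ind K K' hK χ h1, h]

theorem isArtin_zero {K L : IntermediateField ℚ Ω} (hL : FiniteDimensional ℚ L) (hK : K ≤ L) :
    IsArtin K (0 : GG K → ℂ) := ⟨L, hL, hK, IsCharOf.zero⟩

theorem r_zero {K L : IntermediateField ℚ Ω} (hL : FiniteDimensional ℚ L) (hK : K ≤ L) :
    M.r K (0 : GG K → ℂ) = 1 := by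
  have h1 := M.r_add (isArtin_zero hL hK) (isArtin_zero hL hK)
  rw [add_zero] at h1
  exact left_eq_mul.1 h1

theorem r_sum {K L : IntermediateField ℚ Ω} (hL : FiniteDimensional ℚ L) (hK : K ≤ L) {ι : Type}
    (s : Finset ι) (χ : ι → GG K → ℂ) (h : ∀ i ∈ s, IsCharOf (χ i) (GG L))
    (g : ∀ i ∈ s, M.r K (χ i) = 1) : M.r K (∑ i ∈ s, χ i) = 1 := by
  induction s using Finset.induction_on with
  | empty => simpa using M.r_zero hL hK
  | insert a s ha ih =>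
    rw [Finset.sum_insert ha, M.r_add ⟨L, hL, hK, h a (Finset.mem_insert_self _ _)⟩
      ⟨L, hL, hK, IsCharOf.sum s χ fun i hi => h i (Finset.mem_insert_of_mem hi)⟩,
      g a (Finset.mem_insert_self _ _)]
    exact (one_mul _).trans (ih (fun i hi => h i (Finset.mem_insert_of_mem hi))
        fun i hi => g i (Finset.mem_insert_of_mem hi))

/-- the relation for one character -/
theorem of_rel {K H N' L : IntermediateField ℚ Ω} {ℓ : ℕ} [Fact ℓ.Prime]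
    (a : Aff ℓ (GG K) (GG H) (GG N')) (hH : K ≤ H) (hN : K ≤ N') (hL : FiniteDimensional ℚ L)
    (hLH : H ≤ L) (hLN : N' ≤ L) (hn : (GG L).Normal) {χ : GG K → ℂ} (h : IsCharOf χ (GG L))
    (g1 : M.Deligne H (a.ξH χ))
    (g2 : ∀ q : (ZMod ℓ)ˣ ⧸ a.u.range, M.Deligne N' (a.ξN ZMod.stdAddChar χ q.out)) :
    M.Deligne K χ := by
  have hU : GG L ≤ GG H := fixingSubgroup_le hLH
  have hV : GG L ≤ GG N' := fixingSubgroup_le hLN
  have hKL : K ≤ L := hH.trans hLH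
  have := a.finH
  have := a.finN
  have key := a.rel (ZMod.isPrimitive_stdAddChar ℓ) h.isCl
  have k1 : M.r K (Pool.Agent.Q317.ST.ind (GG K) (GG H) (a.ξH χ)) = 1 := by
    rw [r_ind hH ⟨L, hL, hLH, a.charH h⟩]
    exact deligne_iff.1 g1
  have k2 : ∀ q : (ZMod ℓ)ˣ ⧸ a.u.range,
      M.r K (Pool.Agent.Q317.ST.ind (GG K) (GG N') (a.ξN ZMod.stdAddChar χ q.out)) = 1 := by
    intro q
    rw [r_ind hN ⟨L, hL, hLN, a.charN _ _ hU h⟩]
    exact deligne_iff.1 (g2 q)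
  have c2 : ∀ q : (ZMod ℓ)ˣ ⧸ a.u.range, IsCharOf
      (Pool.Agent.Q317.ST.ind (GG K) (GG N') (a.ξN ZMod.stdAddChar χ q.out)) (GG L) :=
    fun q => (a.charN _ _ hU h).induced a.nle hn hV
  rw [key, r_add ⟨L, hL, hKL, h⟩ ⟨L, hL, hKL, IsCharOf.sum _ _ fun q _ => c2 q⟩,
    r_sum hL hKL _ _ (fun q _ => c2 q) (fun q _ => k2 q)] at k1
  exact deligne_iff.2 ((mul_one _).symm.trans k1)

section descent

variable [IsAlgClosure ℚ Ω] {K : IntermediateField ℚ Ω} {ℓ : ℕ} [Fact ℓ.Prime] {ζ α : Ω}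

theorem big (L : IntermediateField ℚ Ω) (hL : FiniteDimensional ℚ L) (α ζ : Ω) :
    ∃ L' : IntermediateField ℚ Ω, L ≤ L' ∧ ℚ⟮α⟯ ≤ L' ∧ ℚ⟮ζ⟯ ≤ L' ∧ FiniteDimensional ℚ L' ∧
      (GG L').Normal := by
  have hAlg := (inferInstance : IsAlgClosure ℚ Ω).isAlgebraic
  have i1 : FiniteDimensional ℚ ℚ⟮α⟯ :=
    adjoin.finiteDimensional (hAlg.isAlgebraic α).isIntegral
  have i2 : FiniteDimensional ℚ ℚ⟮ζ⟯ :=
    adjoin.finiteDimensional (hAlg.isAlgebraic ζ).isIntegral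
  obtain ⟨L', hle, hf, hn⟩ := StarkNumbers.exists_normal (L ⊔ (ℚ⟮α⟯ ⊔ ℚ⟮ζ⟯))
  have hΩ : Normal ℚ Ω := normalΩ
  have : IsGalois ℚ Ω := ⟨⟩
  have : IsGalois ℚ L' := ⟨⟩
  exact ⟨L', le_sup_left.trans hle, (le_sup_left.trans le_sup_right).trans hle,
    (le_sup_right.trans le_sup_right).trans hle, hf,
    IsGalois.fixingSubgroup_normal_of_isGalois L'⟩

/-- **Descent**, all Artin characters. -/
theorem AllFor.descent (hζ : IsPrimitiveRoot ζ ℓ) (hα : α ^ ℓ ∈ K) (hn : ∀ b ∈ K, b ^ ℓ ≠ α ^ ℓ)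
    (h1 : M.AllFor (K ⊔ ℚ⟮α⟯)) (h2 : M.AllFor (K ⊔ ℚ⟮ζ⟯)) : M.AllFor K := by
  rintro χ ⟨L, hL, hKL, h⟩
  have h0 : α ≠ 0 := by
    rintro rfl
    exact hn 0 K.zero_mem rfl
  obtain ⟨L', e1, e2, e3, e4, e5⟩ := big L hL α ζ
  have h' : IsCharOf χ (GG L') := h.mono (fixingSubgroup_le e1)
  have hH : K ⊔ ℚ⟮α⟯ ≤ L' := sup_le (hKL.trans e1) e2
  have hN : K ⊔ ℚ⟮ζ⟯ ≤ L' := sup_le (hKL.trans e1) e3
  exact of_rel (aff hζ h0 hα hn) le_sup_left le_sup_left e4 hH hN e5 h'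
    (h1 _ ⟨L', e4, hH, Aff.charH _ h'⟩)
    fun q => h2 _ ⟨L', e4, hN, Aff.charN _ _ _ (fixingSubgroup_le hH) h'⟩

/-- **Descent**, characters of abelian extensions. -/
theorem AbelianFor.descent (hζ : IsPrimitiveRoot ζ ℓ) (hα : α ^ ℓ ∈ K)
    (hn : ∀ b ∈ K, b ^ ℓ ≠ α ^ ℓ)
    (h1 : M.AbelianFor (K ⊔ ℚ⟮α⟯)) (h2 : M.AbelianFor (K ⊔ ℚ⟮ζ⟯)) : M.AbelianFor K := by
  rintro χ ⟨L, hab, h⟩
  have h0 : α ≠ 0 := by
    rintro rfl
    exact hn 0 K.zero_mem rfl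
  have hAlg := (inferInstance : IsAlgClosure ℚ Ω).isAlgebraic
  have i1 : FiniteDimensional ℚ ℚ⟮α⟯ :=
    adjoin.finiteDimensional (hAlg.isAlgebraic α).isIntegral
  have i2 : FiniteDimensional ℚ ℚ⟮ζ⟯ :=
    adjoin.finiteDimensional (hAlg.isAlgebraic ζ).isIntegral
  have i3 : FiniteDimensional ℚ L := hab.1
  obtain ⟨L', e1, e2, e3, e4, e5⟩ := big L i3 α ζ
  have hKL : K ≤ L := hab.2.1
  have h' : IsCharOf χ (GG L') := h.mono (fixingSubgroup_le e1)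
  have hH : K ⊔ ℚ⟮α⟯ ≤ L' := sup_le (hKL.trans e1) e2
  have hN : K ⊔ ℚ⟮ζ⟯ ≤ L' := sup_le (hKL.trans e1) e3
  let a := aff hζ h0 hα hn
  -- the field `K(α)`
  have abH : AbelianExt (K ⊔ ℚ⟮α⟯) (L ⊔ ℚ⟮α⟯) := by
    refine ⟨inferInstance, sup_le_sup_right hKL _, fun g hg t ht => ?_⟩
    rw [mem_GG_adjoin] at hg ht ⊢
    refine ⟨hab.2.2 g hg.1 t ht.1, ?_⟩
    exact MulAction.mem_stabilizer_iff.1 ((MulAction.stabilizer _ α).mul_mem
      ((MulAction.stabilizer _ α).mul_mem ((MulAction.stabilizer _ α).mul_mem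
        (show g ∈ MulAction.stabilizer _ α from hg.2) (show t ∈ MulAction.stabilizer _ α from ht.2))
        ((MulAction.stabilizer _ α).inv_mem (show g ∈ MulAction.stabilizer _ α from hg.2)))
        ((MulAction.stabilizer _ α).inv_mem (show t ∈ MulAction.stabilizer _ α from ht.2)))
  -- the field `K(ζ)`
  have abN : AbelianExt (K ⊔ ℚ⟮ζ⟯) (L ⊔ ℚ⟮ζ⟯ ⊔ ℚ⟮α⟯) := by
    refine ⟨inferInstance, (sup_le_sup_right hKL _).trans le_sup_left, fun g hg t ht => ?_⟩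
    have hg' := (mem_GG_adjoin g).1 hg
    have ht' := (mem_GG_adjoin t).1 ht
    have hstab : g * t * g⁻¹ * t⁻¹ ∈ MulAction.stabilizer (Ω ≃ₐ[ℚ] Ω) ζ :=
      (MulAction.stabilizer _ ζ).mul_mem
      ((MulAction.stabilizer _ ζ).mul_mem ((MulAction.stabilizer _ ζ).mul_mem
        (show g ∈ MulAction.stabilizer _ ζ from hg'.2) (show t ∈ MulAction.stabilizer _ ζ from ht'.2))
        ((MulAction.stabilizer _ ζ).inv_mem (show g ∈ MulAction.stabilizer _ ζ from hg'.2)))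
        ((MulAction.stabilizer _ ζ).inv_mem (show t ∈ MulAction.stabilizer _ ζ from ht'.2))
    have h3 : g * t * g⁻¹ * t⁻¹ ∈ GG (L ⊔ ℚ⟮ζ⟯) := by
      rw [mem_GG_adjoin]
      exact ⟨hab.2.2 g hg'.1 t ht'.1, MulAction.mem_stabilizer_iff.1 hstab⟩
    rw [mem_GG_adjoin]
    refine ⟨h3, ?_⟩
    -- the translation parts commute
    have ha : ∀ x y : GG K, a.u x = 1 → a.u y = 1 → a.κ (x * y * x⁻¹ * y⁻¹) = 0 := by
      intro x y hx hy
      rw [a.mul, a.mul, a.mul, a.inv, a.inv, map_mul, map_mul, map_inv]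
      simp [hx, hy]
    have hu1 : a.u ⟨g, hg'.1⟩ = 1 := (a.memN _).1 hg
    have hu2 : a.u ⟨t, ht'.1⟩ = 1 := (a.memN _).1 ht
    have h4 := ha ⟨g, hg'.1⟩ ⟨t, ht'.1⟩ hu1 hu2
    rw [← a.memH] at h4
    exact ((mem_GG_adjoin _).1 h4).2
  have c1 : IsCharOf (a.ξH χ) (GG (L ⊔ ℚ⟮α⟯)) :=
    a.charH (h.mono (fixingSubgroup_le le_sup_left))
  have c3 : ∀ q, IsCharOf (a.ξN ZMod.stdAddChar χ q) (GG (L ⊔ ℚ⟮ζ⟯ ⊔ ℚ⟮α⟯)) := fun q =>
    a.charN _ _ (fixingSubgroup_le (sup_le (hKL.trans (le_sup_left.trans le_sup_left))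
      le_sup_right)) (h.mono (fixingSubgroup_le (le_sup_left.trans le_sup_left)))
  exact of_rel a le_sup_left le_sup_left e4 hH hN e5 h' (h1 _ ⟨_, abH, c1⟩)
    fun q => h2 _ ⟨_, abN, c3 _⟩

end descent

end Twists

end Pool.Agent.Q5.DL
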